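import Mathlib

/-!
# The layered bipartite graph in the middle of the proof

Rows `R_k` (`0 ≤ k ≤ 2n`) with `rs n k` cells and rows `Q_k` (`0 ≤ k < 2n`) with `qs n k` cells.
The cell `(k,r)` of `R` is adjacent to the cells `r`, `r+1` of `Q_k` and of `Q_{k-1}`.
-/

namespace Pool.Agent.H43.Benzel

/-- number of cells of the row `R_k` -/
def rs (n k : ℕ) : ℕ := if k < n then n + 1 + k else 3 * n - k

/-- number of cells of the row `Q_k` -/
def qs (n k : ℕ) : ℕ := if k < n then n + 2 + k else 3 * n - k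

/-- cells of the rows `R_k` -/
def RCell (n : ℕ) : Type := {x : ℕ × ℕ // x.1 ≤ 2 * n ∧ x.2 < rs n x.1}

/-- cells of the rows `Q_k` -/
def QCell (n : ℕ) : Type := {x : ℕ × ℕ // x.1 < 2 * n ∧ x.2 < qs n x.1}

/-- adjacency between the cell `x = (k,r)` of `R` and the cell `y = (k',q)` of `Q` -/
def AdjRQ (x y : ℕ × ℕ) : Prop := (y.1 = x.1 ∨ y.1 + 1 = x.1) ∧ (y.2 = x.2 ∨ y.2 = x.2 + 1)

/-- number of perfect matchings -/
noncomputable def M (n : ℕ) : ℕ :=
  Nat.card {f : RCell n ≃ QCell n // ∀ x : RCell n, AdjRQ x.1 (f x).1}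

/-- Kasteleyn weights: `-1` on the edge from `(k,r)` to `(k-1,r+1)`, `1` on the three others. -/
def kw (x y : ℕ × ℕ) : ℤ :=
  if y.1 = x.1 then (if y.2 = x.2 ∨ y.2 = x.2 + 1 then 1 else 0)
  else if y.1 + 1 = x.1 then (if y.2 = x.2 then 1 else if y.2 = x.2 + 1 then -1 else 0)
  else 0

noncomputable instance (n : ℕ) : Fintype (RCell n) :=
  Fintype.ofInjective
    (fun x : RCell n => ((⟨x.1.1, by have := x.2.1; omega⟩, ⟨x.1.2, by
      have h := x.2.2; have h1 := x.2.1
      unfold rs at h; split_ifs at h <;> omega⟩) : Fin (2 * n + 1) × Fin (3 * n + 1)))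
    (by
      intro x y h
      simp only [Prod.mk.injEq, Fin.mk.injEq] at h
      exact Subtype.ext (Prod.ext h.1 h.2))

noncomputable instance (n : ℕ) : Fintype (QCell n) :=
  Fintype.ofInjective
    (fun x : QCell n => ((⟨x.1.1, by have := x.2.1; omega⟩, ⟨x.1.2, by
      have h := x.2.2; have h1 := x.2.1
      unfold qs at h; split_ifs at h <;> omega⟩) : Fin (2 * n + 1) × Fin (3 * n + 2)))
    (by
      intro x y h
      simp only [Prod.mk.injEq, Fin.mk.injEq] at h
      exact Subtype.ext (Prod.ext h.1 h.2))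

noncomputable instance (n : ℕ) : DecidableEq (RCell n) := Classical.decEq _
noncomputable instance (n : ℕ) : DecidableEq (QCell n) := Classical.decEq _

/-- The Kasteleyn matrix, rows and columns indexed by `RCell n` through a bijection `e`. -/
noncomputable def kmat (n : ℕ) (e : RCell n ≃ QCell n) : Matrix (RCell n) (RCell n) ℤ :=
  Matrix.of fun x y => kw x.1 (e y).1

end Pool.Agent.H43.Benzel
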