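import Mathlib

/-!
# Hankel-type determinants of Catalan numbers with step two in the rows

`catDet e m = det (catalan (2a+e+b))_{a,b<m}` and its product formula.
-/

namespace Pool.Agent.H43.Benzel

open Finset Matrix Polynomial

/-- `det (catalan (2a+e+b))_{0 ≤ a,b < m}`. -/
noncomputable def catDet (e m : ℕ) : ℤ :=
  Matrix.det (Matrix.of fun (a b : Fin m) => (catalan (2 * a.1 + e + b.1) : ℤ))

/-- ballot numbers in closed form (rational version). -/
noncomputable def bal (N b : ℕ) : ℚ :=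
  (2 * b + 1) * ((2 * N).factorial : ℚ) * (N.descFactorial b : ℚ) /
    ((N.factorial : ℚ) * ((N + b + 1).factorial : ℚ))

lemma bal_zero (N : ℕ) : bal N 0 = (catalan N : ℚ) := by
  have h : ((N + 1 : ℕ) : ℚ) * (catalan N : ℚ) = ((2 * N).choose N : ℚ) := by
    have := succ_mul_catalan_eq_centralBinom N
    rw [Nat.centralBinom_eq_two_mul_choose] at this
    exact_mod_cast this
  have h2 : ((2 * N).choose N : ℚ) = ((2 * N).factorial : ℚ) / ((N.factorial : ℚ) * (N.factorial : ℚ)) := by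
    rw [Nat.cast_choose ℚ (by omega : N ≤ 2 * N)]
    congr 3
    congr 1
    omega
  have hN : ((N + 1 : ℕ) : ℚ) ≠ 0 := by positivity
  have hf : (N.factorial : ℚ) ≠ 0 := by positivity
  have h3 : (catalan N : ℚ) = ((2 * N).factorial : ℚ) / ((N.factorial : ℚ) * (N.factorial : ℚ)) / ((N + 1 : ℕ) : ℚ) := by
    rw [eq_div_iff hN, mul_comm, h, h2]
  unfold bal
  rw [h3]
  simp only [CharP.cast_eq_zero, mul_zero, zero_add, one_mul, Nat.descFactorial_zero, Nat.cast_one,
    mul_one, add_zero, Nat.factorial_succ]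
  push_cast
  field_simp

lemma bal_one (N : ℕ) : bal N 1 = bal (N + 1) 0 - bal N 0 := by
  unfold bal
  have e1 : 2 * (N + 1) = 2 * N + 1 + 1 := by ring
  rw [e1]
  simp only [Nat.descFactorial_zero, Nat.descFactorial_one, Nat.factorial_succ]
  have hf : (N.factorial : ℚ) ≠ 0 := by positivity
  have h1 : (N : ℚ) + 1 ≠ 0 := by positivity
  have h2 : (N : ℚ) + 2 ≠ 0 := by positivity
  have h3 : (N : ℚ) + 1 + 1 ≠ 0 := by positivity
  push_cast
  field_simp
  ring

lemma bal_succ_succ (N c : ℕ) :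
    bal N (c + 2) = bal (N + 1) (c + 1) - 2 * bal N (c + 1) - bal N c := by
  unfold bal
  have e1 : 2 * (N + 1) = 2 * N + 1 + 1 := by ring
  rw [e1]
  have d1 : ((N + 1).descFactorial (c + 1) : ℚ) = (N + 1) * (N.descFactorial c : ℚ) := by
    rw [Nat.succ_descFactorial_succ]; push_cast; ring
  have key : ∀ k : ℕ, (N.descFactorial (k + 1) : ℚ) = ((N : ℚ) - k) * (N.descFactorial k : ℚ) := by
    intro k
    rw [Nat.descFactorial_succ]
    by_cases h : k ≤ N
    · push_cast [Nat.cast_sub h]; ring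
    · have h' : N < k := by omega
      rw [Nat.descFactorial_eq_zero_iff_lt.mpr h']; simp
  have d2 := key c
  have d3 : (N.descFactorial (c + 2) : ℚ) = ((N : ℚ) - (c + 1 : ℕ)) * (((N : ℚ) - c) * (N.descFactorial c : ℚ)) := by
    rw [← key c]; exact key (c + 1)
  rw [d1, d3, d2]
  have f1 : ((N + c + 1).factorial : ℚ) ≠ 0 := by positivity
  have f2 : ((N + (c + 1) + 1).factorial : ℚ) = (N + c + 2) * ((N + c + 1).factorial : ℚ) := by
    have : N + (c + 1) + 1 = (N + c + 1) + 1 := by ring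
    rw [this, Nat.factorial_succ]; push_cast; ring
  have f3 : ((N + (c + 2) + 1).factorial : ℚ) = (N + c + 3) * ((N + c + 2) * ((N + c + 1).factorial : ℚ)) := by
    have : N + (c + 2) + 1 = (N + (c + 1) + 1) + 1 := by ring
    rw [this, Nat.factorial_succ, Nat.cast_mul, f2]; push_cast; ring
  have f4 : ((N + 1 + (c + 1) + 1).factorial : ℚ) = (N + c + 3) * ((N + c + 2) * ((N + c + 1).factorial : ℚ)) := by
    have : N + 1 + (c + 1) + 1 = N + (c + 2) + 1 := by ring
    rw [this, f3]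
  rw [f2, f3, f4]
  simp only [Nat.factorial_succ]
  have hf : (N.factorial : ℚ) ≠ 0 := by positivity
  have h1 : (N : ℚ) + 1 ≠ 0 := by positivity
  have h2 : (N : ℚ) + c + 2 ≠ 0 := by positivity
  have h3 : (N : ℚ) + c + 3 ≠ 0 := by positivity
  push_cast
  field_simp
  ring

/-- The monic polynomials `s_b` (`= S_{2b}` in the variable `Y = y²`). -/
noncomputable def sPoly : ℕ → ℚ[X]
  | 0 => 1
  | 1 => X - 1
  | (b + 2) => (X - 2) * sPoly (b + 1) - sPoly b

/-- The moment functional `Y^j ↦ catalan (N + j)`. -/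
noncomputable def mom (N : ℕ) : ℚ[X] →ₗ[ℚ] ℚ :=
  Polynomial.lsum (fun j => (LinearMap.id : ℚ →ₗ[ℚ] ℚ).smulRight (catalan (N + j) : ℚ))

lemma mom_apply (N : ℕ) (p : ℚ[X]) : mom N p = p.sum (fun j c => c * (catalan (N + j) : ℚ)) := by
  simp [mom, Polynomial.lsum_apply]

lemma mom_X_pow (N j : ℕ) : mom N (X ^ j) = (catalan (N + j) : ℚ) := by
  rw [mom_apply, ← Polynomial.monomial_one_right_eq_X_pow, Polynomial.sum_monomial_index] <;> simp

lemma mom_X_mul (N : ℕ) (p : ℚ[X]) : mom N (X * p) = mom (N + 1) p := by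
  induction p using Polynomial.induction_on' with
  | add p q hp hq => rw [mul_add, map_add, map_add, hp, hq]
  | monomial n a =>
    rw [← Polynomial.C_mul_X_pow_eq_monomial]
    have : (X : ℚ[X]) * (C a * X ^ n) = a • X ^ (n + 1) := by
      rw [Polynomial.smul_eq_C_mul]; ring
    rw [this, map_smul, mom_X_pow, ← Polynomial.smul_eq_C_mul, map_smul, mom_X_pow]
    congr 3
    ring

lemma mom_sPoly (N b : ℕ) : mom N (sPoly b) = bal N b := by
  induction b using Nat.strong_induction_on generalizing N with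
  | _ b ih =>
    match b with
    | 0 =>
      have := mom_X_pow N 0
      simp only [pow_zero, add_zero] at this
      rw [sPoly, this, bal_zero]
    | 1 =>
      rw [sPoly, map_sub]
      have h1 := mom_X_pow N 1
      have h0 := mom_X_pow N 0
      simp only [pow_zero, add_zero, pow_one] at h0 h1
      rw [h0, h1, bal_one, bal_zero, bal_zero]
    | (c + 2) =>
      rw [sPoly, sub_mul, map_sub, map_sub, mom_X_mul, ih (c + 1) (by omega), ih c (by omega)]
      have : (2 : ℚ[X]) * sPoly (c + 1) = (2 : ℚ) • sPoly (c + 1) := by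
        rw [Polynomial.smul_eq_C_mul]; rfl
      rw [this, map_smul, ih (c + 1) (by omega), bal_succ_succ, smul_eq_mul]

lemma sPoly_monic_natDegree (b : ℕ) : (sPoly b).Monic ∧ (sPoly b).natDegree = b := by
  induction b using Nat.strong_induction_on with
  | _ b ih =>
    match b with
    | 0 => exact ⟨by rw [sPoly]; exact monic_one, by rw [sPoly]; simp⟩
    | 1 =>
      have : (X - 1 : ℚ[X]) = X - C 1 := by simp
      refine ⟨by rw [sPoly, this]; exact monic_X_sub_C 1, by rw [sPoly, this]; exact natDegree_X_sub_C 1⟩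
    | (c + 2) =>
      obtain ⟨m1, d1⟩ := ih (c + 1) (by omega)
      obtain ⟨m0, d0⟩ := ih c (by omega)
      have h2 : (X - 2 : ℚ[X]) = X - C 2 := rfl
      have hm : ((X - 2 : ℚ[X]) * sPoly (c + 1)).Monic := by
        rw [h2]; exact (monic_X_sub_C 2).mul m1
      have hd : ((X - 2 : ℚ[X]) * sPoly (c + 1)).natDegree = c + 2 := by
        rw [h2, (monic_X_sub_C (2 : ℚ)).natDegree_mul m1, natDegree_X_sub_C, d1]; ring
      have hlt : (sPoly c).degree < ((X - 2 : ℚ[X]) * sPoly (c + 1)).degree := by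
        rw [degree_eq_natDegree m0.ne_zero, degree_eq_natDegree hm.ne_zero, d0, hd]
        exact_mod_cast (by omega : c < c + 2)
      rw [sPoly]
      refine ⟨hm.sub_of_left hlt, ?_⟩
      rw [natDegree_sub_eq_left_of_natDegree_lt (by rw [d0, hd]; omega), hd]


lemma catDet_eq_det_bal (e m : ℕ) :
    (catDet e m : ℚ) = Matrix.det (Matrix.of fun (a b : Fin m) => bal (2 * a.1 + e) b.1) := by
  set M : Matrix (Fin m) (Fin m) ℚ := Matrix.of fun a j => (catalan (2 * a.1 + e + j.1) : ℚ) with hM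
  set K : Matrix (Fin m) (Fin m) ℚ := Matrix.of fun j b => (sPoly b.1).coeff j.1 with hK
  have h1 : (catDet e m : ℚ) = M.det := by
    have := (Int.castRingHom ℚ).map_det
      (Matrix.of fun (a b : Fin m) => (catalan (2 * a.1 + e + b.1) : ℤ))
    unfold catDet
    refine Eq.trans this ?_
    congr 1
  have h2 : K.det = 1 := by
    rw [Matrix.det_of_isUpperTriangular]
    · apply Finset.prod_eq_one
      intro i _
      have := (sPoly_monic_natDegree i.1)
      have h := this.1.coeff_natDegree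
      rw [this.2] at h
      simpa [hK] using h
    · intro i j hij
      simp only [id] at hij
      simp only [hK, Matrix.of_apply]
      apply Polynomial.coeff_eq_zero_of_natDegree_lt
      rw [(sPoly_monic_natDegree j.1).2]
      exact hij
  have h3 : M * K = Matrix.of fun (a b : Fin m) => bal (2 * a.1 + e) b.1 := by
    ext a b
    rw [Matrix.mul_apply, Matrix.of_apply, ← mom_sPoly, mom_apply,
      Polynomial.sum_over_range' _ (by simp) m (by rw [(sPoly_monic_natDegree b.1).2]; exact b.2),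
      ← Fin.sum_univ_eq_sum_range (fun j => (sPoly b.1).coeff j * (catalan (2 * a.1 + e + j) : ℚ)) m]
    apply Finset.sum_congr rfl
    intro j _
    simp [hM, hK, mul_comm]
  rw [h1, ← h3, Matrix.det_mul, h2, mul_one]

/-- the polynomials appearing in the closed form of `bal`. -/
noncomputable def pB (m b : ℕ) : ℚ[X] :=
  descPochhammer ℚ b * (ascPochhammer ℚ (m - 1 - b)).comp (X + C ((b : ℚ) + 2))

lemma pB_eval (m b N : ℕ) : (pB m b).eval (N : ℚ) =
    (N.descFactorial b : ℚ) * ((N + b + 2).ascFactorial (m - 1 - b) : ℚ) := by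
  unfold pB
  rw [eval_mul, eval_comp, descPochhammer_eval_eq_descFactorial]
  congr 1
  have : (X + C ((b : ℚ) + 2)).eval (N : ℚ) = ((N + b + 2 : ℕ) : ℚ) := by
    simp only [eval_add, eval_X, eval_C]
    push_cast
    ring
  rw [this, ← ascPochhammer_eval_cast]
  congr 1
  exact ascPochhammer_nat_eq_ascFactorial _ _

lemma bal_eq (m b N : ℕ) (hb : b < m) : bal N b =
    (((2 * N).factorial : ℚ) / ((N.factorial : ℚ) * ((N + m).factorial : ℚ))) *
      ((2 * (b : ℚ) + 1) * (pB m b).eval (N : ℚ)) := by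
  have h := Nat.factorial_mul_ascFactorial (N + b + 1) (m - 1 - b)
  have e : N + b + 1 + (m - 1 - b) = N + m := by omega
  rw [e] at h
  have h' : ((N + m).factorial : ℚ) = ((N + b + 1).factorial : ℚ) * ((N + b + 2).ascFactorial (m - 1 - b) : ℚ) := by
    exact_mod_cast h.symm
  rw [pB_eval, h']
  unfold bal
  have f1 : ((N + b + 1).factorial : ℚ) ≠ 0 := by positivity
  have f2 : ((N + b + 2).ascFactorial (m - 1 - b) : ℚ) ≠ 0 := by
    have := Nat.ascFactorial_pos (N + b + 1) (m - 1 - b)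
    positivity
  have f3 : (N.factorial : ℚ) ≠ 0 := by positivity
  field_simp

lemma pB_natDegree_lt (m b : ℕ) (hb : b < m) : (pB m b).natDegree < m := by
  unfold pB
  have h1 : (descPochhammer ℚ b).natDegree ≤ b := by
    rw [descPochhammer_natDegree]
  have h2 : ((ascPochhammer ℚ (m - 1 - b)).comp (X + C ((b : ℚ) + 2))).natDegree ≤ m - 1 - b := by
    rw [natDegree_comp, ascPochhammer_natDegree, natDegree_X_add_C, mul_one]
  calc _ ≤ b + (m - 1 - b) := (natDegree_mul_le).trans (add_le_add h1 h2)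
    _ < m := by omega

lemma det_eval_eq (m : ℕ) (p : Fin m → ℚ[X]) (hp : ∀ b, (p b).natDegree < m) (v : Fin m → ℚ) :
    Matrix.det (Matrix.of fun (a b : Fin m) => (p b).eval (v a)) =
      (Matrix.vandermonde v).det * Matrix.det (Matrix.of fun (r b : Fin m) => (p b).coeff r.1) := by
  rw [← Matrix.det_mul]
  congr 1
  ext a b
  rw [Matrix.mul_apply, Matrix.of_apply, Polynomial.eval_eq_sum_range' (hp b),
    ← Fin.sum_univ_eq_sum_range (fun j => (p b).coeff j * (v a) ^ j) m]
  apply Finset.sum_congr rfl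
  intro j _
  simp [Matrix.vandermonde, mul_comm]

lemma vandermonde_affine (m e : ℕ) :
    (Matrix.vandermonde (fun a : Fin m => ((2 * a.1 + e : ℕ) : ℚ))).det =
      2 ^ (m * (m - 1) / 2) * (Matrix.vandermonde (fun a : Fin m => (a.1 : ℚ))).det := by
  rw [Matrix.det_vandermonde, Matrix.det_vandermonde]
  have : ∀ i j : Fin m, ((2 * j.1 + e : ℕ) : ℚ) - ((2 * i.1 + e : ℕ) : ℚ) = 2 * ((j.1 : ℚ) - (i.1 : ℚ)) := by
    intro i j
    push_cast
    ring
  simp only [this, Finset.prod_mul_distrib, Finset.prod_const]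
  congr 1
  rw [Finset.prod_pow_eq_pow_sum]
  congr 1
  simp only [Fin.card_Ioi]
  have : ∑ i : Fin m, (m - 1 - i.1) = ∑ i ∈ Finset.range m, (m - 1 - i) :=
    Fin.sum_univ_eq_sum_range (fun i => m - 1 - i) m
  rw [this, Finset.sum_range_reflect (fun i => i) m, Finset.sum_range_id]

/-- Product formula, first form. -/
theorem catDet_eq (e m : ℕ) :
    (catDet e m : ℚ) = 2 ^ (m * (m - 1) / 2) * ∏ a ∈ Finset.range m,
      (((2 * (2 * a + e)).factorial : ℚ) * (a.factorial : ℚ) * ((a + m).factorial : ℚ) /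
        (((2 * a + e).factorial : ℚ) * ((2 * a + e + m).factorial : ℚ) * ((2 * a).factorial : ℚ))) := by
  rw [catDet_eq_det_bal]
  have h1 : (Matrix.of fun (a b : Fin m) => bal (2 * a.1 + e) b.1) =
      Matrix.of fun (a b : Fin m) =>
        ((((2 * (2 * a.1 + e)).factorial : ℚ) /
          (((2 * a.1 + e).factorial : ℚ) * ((2 * a.1 + e + m).factorial : ℚ)))) *
        (Matrix.of fun (a b : Fin m) => (2 * (b.1 : ℚ) + 1) *
          (Matrix.of fun (a b : Fin m) => (pB m b.1).eval ((2 * a.1 + e : ℕ) : ℚ)) a b) a b := by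
    ext a b
    simp only [Matrix.of_apply]
    rw [bal_eq m b.1 (2 * a.1 + e) b.2]
  rw [h1, Matrix.det_mul_column, Matrix.det_mul_row,
    det_eval_eq m (fun b => pB m b.1) (fun b => pB_natDegree_lt m b.1 b.2), vandermonde_affine]
  have h2 := det_eval_eq m (fun b => pB m b.1) (fun b => pB_natDegree_lt m b.1 b.2)
    (fun a => (a.1 : ℚ))
  have h3 : Matrix.det (Matrix.of fun (a b : Fin m) => (pB m b.1).eval (a.1 : ℚ)) =
      ∏ b : Fin m, (pB m b.1).eval (b.1 : ℚ) := by
    rw [Matrix.det_of_isLowerTriangular]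
    · rfl
    · intro i j hij
      have hij' : i.1 < j.1 := hij
      simp only [Matrix.of_apply]
      rw [pB_eval, Nat.descFactorial_eq_zero_iff_lt.mpr hij']
      simp
  rw [mul_assoc (2 ^ (m * (m - 1) / 2)), ← h2, h3]
  rw [← mul_assoc, ← mul_assoc, mul_comm _ ((2 : ℚ) ^ (m * (m - 1) / 2)), mul_assoc, mul_assoc]
  congr 1
  rw [← Finset.prod_mul_distrib, ← Finset.prod_mul_distrib, ← Fin.prod_univ_eq_prod_range]
  apply Finset.prod_congr rfl
  intro a _
  rw [pB_eval]
  have f0 := Nat.factorial_mul_ascFactorial (a.1 + a.1 + 1) (m - 1 - a.1)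
  have e0 : a.1 + a.1 + 1 + (m - 1 - a.1) = a.1 + m := by have := a.2; omega
  rw [e0] at f0
  have f1 : ((a.1 + m).factorial : ℚ) = ((2 * a.1 + 1).factorial : ℚ) *
      ((a.1 + a.1 + 2).ascFactorial (m - 1 - a.1) : ℚ) := by
    have : 2 * a.1 + 1 = a.1 + a.1 + 1 := by ring
    rw [this]
    exact_mod_cast f0.symm
  have f2 : ((2 * a.1 + 1).factorial : ℚ) = (2 * (a.1 : ℚ) + 1) * ((2 * a.1).factorial : ℚ) := by
    rw [Nat.factorial_succ]; push_cast; ring
  rw [f1, f2, Nat.descFactorial_self]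
  have g1 : ((2 * a.1).factorial : ℚ) ≠ 0 := by positivity
  have g2 : ((2 * a.1 + e).factorial : ℚ) ≠ 0 := by positivity
  have g3 : ((2 * a.1 + e + m).factorial : ℚ) ≠ 0 := by positivity
  field_simp


/-- the product in closed form -/
noncomputable def dForm (e m : ℕ) : ℚ :=
  2 ^ (m * (m - 1) / 2) * ∏ a ∈ Finset.range m,
      (((2 * (2 * a + e)).factorial : ℚ) * (a.factorial : ℚ) * ((a + m).factorial : ℚ) /
        (((2 * a + e).factorial : ℚ) * ((2 * a + e + m).factorial : ℚ) * ((2 * a).factorial : ℚ)))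

lemma dForm_pos (e m : ℕ) : 0 < dForm e m := by
  unfold dForm
  apply mul_pos (by positivity)
  apply Finset.prod_pos
  intro a _
  positivity

/-- the middle product -/
noncomputable def pMid (e m : ℕ) : ℚ :=
  ∏ a ∈ Finset.range m, (((a : ℚ) + m + 1) / (2 * (a : ℚ) + e + m + 1))

/-- consecutive quotient -/
noncomputable def hForm (e m : ℕ) : ℚ :=
  2 ^ m * (((2 * (2 * m + e)).factorial : ℚ) * (m.factorial : ℚ) * ((2 * m + 1).factorial : ℚ) /
        (((2 * m + e).factorial : ℚ) * ((3 * m + e + 1).factorial : ℚ) * ((2 * m).factorial : ℚ))) *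
    pMid e m

lemma pMid_pos (e m : ℕ) : 0 < pMid e m := by
  unfold pMid
  apply Finset.prod_pos
  intro a _
  positivity

lemma hForm_pos (e m : ℕ) : 0 < hForm e m := by
  unfold hForm
  have := pMid_pos e m
  positivity

lemma dForm_succ (e m : ℕ) : dForm e (m + 1) = dForm e m * hForm e m := by
  unfold dForm hForm pMid
  rw [Finset.prod_range_succ]
  have h1 : (m + 1) * (m + 1 - 1) / 2 = m * (m - 1) / 2 + m := by
    have : (m + 1) * (m + 1 - 1) = m * (m - 1) + m * 2 := by
      cases m with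
      | zero => rfl
      | succ k => simp only [Nat.add_sub_cancel]; ring
    rw [this, Nat.add_mul_div_right _ _ (by norm_num)]
  have h2 : ∀ a ∈ Finset.range m, (((2 * (2 * a + e)).factorial : ℚ) * (a.factorial : ℚ) * ((a + (m + 1)).factorial : ℚ) /
        (((2 * a + e).factorial : ℚ) * ((2 * a + e + (m + 1)).factorial : ℚ) * ((2 * a).factorial : ℚ))) =
      (((2 * (2 * a + e)).factorial : ℚ) * (a.factorial : ℚ) * ((a + m).factorial : ℚ) /
        (((2 * a + e).factorial : ℚ) * ((2 * a + e + m).factorial : ℚ) * ((2 * a).factorial : ℚ))) *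
      (((a : ℚ) + m + 1) / (2 * (a : ℚ) + e + m + 1)) := by
    intro a _
    have e1 : ((a + (m + 1)).factorial : ℚ) = ((a : ℚ) + m + 1) * ((a + m).factorial : ℚ) := by
      rw [← add_assoc, Nat.factorial_succ]; push_cast; ring
    have e2 : ((2 * a + e + (m + 1)).factorial : ℚ) = (2 * (a : ℚ) + e + m + 1) * ((2 * a + e + m).factorial : ℚ) := by
      rw [← add_assoc, Nat.factorial_succ]; push_cast; ring
    rw [e1, e2]
    have g1 : ((2 * a).factorial : ℚ) ≠ 0 := by positivity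
    have g2 : ((2 * a + e).factorial : ℚ) ≠ 0 := by positivity
    have g3 : ((2 * a + e + m).factorial : ℚ) ≠ 0 := by positivity
    have g4 : (2 * (a : ℚ) + e + m + 1) ≠ 0 := by positivity
    field_simp
  rw [Finset.prod_congr rfl h2, Finset.prod_mul_distrib, h1, pow_add]
  have e3 : m + (m + 1) = 2 * m + 1 := by ring
  have e4 : 2 * m + e + (m + 1) = 3 * m + e + 1 := by ring
  rw [e3, e4]
  ring

lemma pMid_add_two (e m : ℕ) : pMid e (m + 2) = pMid e m *
    (((2 * (m : ℚ) + 1) * (2 * m + 2) * (2 * m + 3) * (2 * m + 4) * (m + e + 1)) /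
      ((m + 1) * (m + 2) * (3 * m + e + 1) * (3 * m + e + 3) * (3 * m + e + 5))) := by
  have hnum : ∀ k : ℕ, ∏ a ∈ Finset.range k, ((a : ℚ) + (k : ℕ) + 1) =
      ((2 * k).factorial : ℚ) / (k.factorial : ℚ) := by
    intro k
    have h := Nat.factorial_mul_ascFactorial k k
    rw [Nat.ascFactorial_eq_prod_range] at h
    have h' : (k.factorial : ℚ) * ∏ a ∈ Finset.range k, ((a : ℚ) + (k : ℕ) + 1) = ((2 * k).factorial : ℚ) := by
      rw [two_mul, ← h]
      push_cast
      congr 1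
      apply Finset.prod_congr rfl
      intro a _
      ring
    rw [eq_div_iff (by positivity), mul_comm]
    exact h'
  have hden : (∏ a ∈ Finset.range (m + 2), (2 * (a : ℚ) + e + (m + 2 : ℕ) + 1)) * (m + e + 1) =
      (∏ a ∈ Finset.range m, (2 * (a : ℚ) + e + (m : ℕ) + 1)) *
        ((3 * m + e + 1) * (3 * m + e + 3) * (3 * m + e + 5)) := by
    have h1 : ∏ a ∈ Finset.range (m + 2 + 1), (2 * (a : ℚ) + e + (m : ℕ) + 1) =
        (∏ a ∈ Finset.range (m + 2), (2 * (a : ℚ) + e + (m + 2 : ℕ) + 1)) * (m + e + 1) := by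
      rw [Finset.prod_range_succ']
      congr 1
      · apply Finset.prod_congr rfl
        intro a _
        push_cast
        ring
      · push_cast
        ring
    rw [← h1, Finset.prod_range_succ, Finset.prod_range_succ, Finset.prod_range_succ]
    push_cast
    ring
  have hn0 := hnum m
  have hn2 := hnum (m + 2)
  have hdpos : ∀ k : ℕ, 0 < ∏ a ∈ Finset.range k, (2 * (a : ℚ) + e + (k : ℕ) + 1) := by
    intro k
    apply Finset.prod_pos
    intro a _
    positivity
  have hd0 := hdpos m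
  have hd2 := hdpos (m + 2)
  unfold pMid
  rw [Finset.prod_div_distrib, Finset.prod_div_distrib, hn0, hn2]
  set Q0 := ∏ a ∈ Finset.range m, (2 * (a : ℚ) + e + (m : ℕ) + 1) with hQ0
  set Q2 := ∏ a ∈ Finset.range (m + 2), (2 * (a : ℚ) + e + (m + 2 : ℕ) + 1) with hQ2
  have hne : ((m : ℚ) + e + 1) ≠ 0 := by positivity
  have hQ2' : Q2 = Q0 * ((3 * m + e + 1) * (3 * m + e + 3) * (3 * m + e + 5)) / (m + e + 1) := by
    rw [eq_div_iff hne, hden]
  rw [hQ2']
  have e1 : 2 * (m + 2) = 2 * m + 1 + 1 + 1 + 1 := by ring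
  rw [e1]
  simp only [Nat.factorial_succ]
  have g1 : ((2 * m).factorial : ℚ) ≠ 0 := by positivity
  have g2 : (m.factorial : ℚ) ≠ 0 := by positivity
  have g3 := hd0.ne'
  have g4 : ((m : ℚ) + 1) ≠ 0 := by positivity
  have g5 : ((m : ℚ) + 2) ≠ 0 := by positivity
  have g6 : (3 * (m : ℚ) + e + 1) ≠ 0 := by positivity
  have g7 : (3 * (m : ℚ) + e + 3) ≠ 0 := by positivity
  have g8 : (3 * (m : ℚ) + e + 5) ≠ 0 := by positivity
  have g9 : ((m : ℚ) + 1 + 1) ≠ 0 := by positivity
  push_cast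
  field_simp
  ring

/-- second quotient -/
noncomputable def rForm (e m : ℕ) : ℚ :=
  4 * ((4 * (m : ℚ) + 2 * e + 1) * (4 * m + 2 * e + 2) * (4 * m + 2 * e + 3) * (4 * m + 2 * e + 4) *
    (4 * m + 2 * e + 5) * (4 * m + 2 * e + 6) * (4 * m + 2 * e + 7) * (4 * m + 2 * e + 8)) *
    ((2 * m + 2) * (2 * m + 3) * (2 * m + 4) * (2 * m + 5)) * (m + e + 1) /
    (((2 * m + e + 1) * (2 * m + e + 2) * (2 * m + e + 3) * (2 * m + e + 4)) *
      ((3 * m + e + 2) * (3 * m + e + 3) * (3 * m + e + 4) * (3 * m + e + 5) * (3 * m + e + 6) *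
        (3 * m + e + 7)) * ((3 * m + e + 1) * (3 * m + e + 3) * (3 * m + e + 5)))

lemma hForm_add_two (e m : ℕ) : hForm e (m + 2) = hForm e m * rForm e m := by
  unfold hForm rForm
  rw [pMid_add_two]
  have f1 : ((2 * (2 * (m + 2) + e)).factorial : ℚ) =
      ((4 * (m : ℚ) + 2 * e + 1) * (4 * m + 2 * e + 2) * (4 * m + 2 * e + 3) * (4 * m + 2 * e + 4) *
      (4 * m + 2 * e + 5) * (4 * m + 2 * e + 6) * (4 * m + 2 * e + 7) * (4 * m + 2 * e + 8)) *
      ((2 * (2 * m + e)).factorial : ℚ) := by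
    have e1 : 2 * (2 * (m + 2) + e) = 2 * (2 * m + e) + 1 + 1 + 1 + 1 + 1 + 1 + 1 + 1 := by ring
    rw [e1]
    simp only [Nat.factorial_succ]
    push_cast
    ring
  have f2 : ((2 * (m + 2) + 1).factorial : ℚ) =
      ((2 * (m : ℚ) + 2) * (2 * m + 3) * (2 * m + 4) * (2 * m + 5)) * ((2 * m + 1).factorial : ℚ) := by
    have e1 : 2 * (m + 2) + 1 = 2 * m + 1 + 1 + 1 + 1 + 1 := by ring
    rw [e1]
    simp only [Nat.factorial_succ]
    push_cast
    ring
  have f3 : ((2 * (m + 2) + e).factorial : ℚ) =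
      ((2 * (m : ℚ) + e + 1) * (2 * m + e + 2) * (2 * m + e + 3) * (2 * m + e + 4)) *
      ((2 * m + e).factorial : ℚ) := by
    have e1 : 2 * (m + 2) + e = 2 * m + e + 1 + 1 + 1 + 1 := by ring
    rw [e1]
    simp only [Nat.factorial_succ]
    push_cast
    ring
  have f4 : ((3 * (m + 2) + e + 1).factorial : ℚ) =
      ((3 * (m : ℚ) + e + 2) * (3 * m + e + 3) * (3 * m + e + 4) * (3 * m + e + 5) *
        (3 * m + e + 6) * (3 * m + e + 7)) * ((3 * m + e + 1).factorial : ℚ) := by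
    have e1 : 3 * (m + 2) + e + 1 = 3 * m + e + 1 + 1 + 1 + 1 + 1 + 1 + 1 := by ring
    rw [e1]
    simp only [Nat.factorial_succ]
    push_cast
    ring
  have f5 : ((2 * (m + 2)).factorial : ℚ) =
      ((2 * (m : ℚ) + 1) * (2 * m + 2) * (2 * m + 3) * (2 * m + 4)) * ((2 * m).factorial : ℚ) := by
    have e1 : 2 * (m + 2) = 2 * m + 1 + 1 + 1 + 1 := by ring
    rw [e1]
    simp only [Nat.factorial_succ]
    push_cast
    ring
  have f6 : ((m + 2).factorial : ℚ) = (((m : ℚ) + 1) * (m + 2)) * (m.factorial : ℚ) := by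
    simp only [Nat.factorial_succ]
    push_cast
    ring
  rw [f1, f2, f3, f4, f5, f6, pow_add]
  have g1 : ((2 * m).factorial : ℚ) ≠ 0 := by positivity
  have g2 : (m.factorial : ℚ) ≠ 0 := by positivity
  have g3 : ((2 * m + e).factorial : ℚ) ≠ 0 := by positivity
  have g4 : ((2 * (2 * m + e)).factorial : ℚ) ≠ 0 := by positivity
  have g5 : ((3 * m + e + 1).factorial : ℚ) ≠ 0 := by positivity
  have g6 := (pMid_pos e m).ne'
  have g7 : ((2 * m + 1).factorial : ℚ) ≠ 0 := by positivity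
  have k1 : ((m : ℚ) + 1) ≠ 0 := by positivity
  have k2 : ((m : ℚ) + 2) ≠ 0 := by positivity
  have v1 : (3 * (m : ℚ) + e + 1) ≠ 0 := by positivity
  have v2 : (3 * (m : ℚ) + e + 2) ≠ 0 := by positivity
  have v3 : (3 * (m : ℚ) + e + 3) ≠ 0 := by positivity
  have v4 : (3 * (m : ℚ) + e + 4) ≠ 0 := by positivity
  have v5 : (3 * (m : ℚ) + e + 5) ≠ 0 := by positivity
  have v6 : (3 * (m : ℚ) + e + 6) ≠ 0 := by positivity
  have v7 : (3 * (m : ℚ) + e + 7) ≠ 0 := by positivity
  have w1 : (2 * (m : ℚ) + 1) ≠ 0 := by positivity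
  have w2 : (2 * (m : ℚ) + 2) ≠ 0 := by positivity
  have w3 : (2 * (m : ℚ) + 3) ≠ 0 := by positivity
  have w4 : (2 * (m : ℚ) + 4) ≠ 0 := by positivity
  have x1 : (2 * (m : ℚ) + e + 1) ≠ 0 := by positivity
  have x2 : (2 * (m : ℚ) + e + 2) ≠ 0 := by positivity
  have x3 : (2 * (m : ℚ) + e + 3) ≠ 0 := by positivity
  have x4 : (2 * (m : ℚ) + e + 4) ≠ 0 := by positivity
  field_simp
  norm_num

/-- The value of the tiling count in terms of Catalan determinants. -/
noncomputable def tVal (n : ℕ) : ℚ := 2 ^ n * (catDet 1 n : ℚ) * (catDet 0 (n + 1) : ℚ)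

/-- The right hand side of the conjectured third quotient. -/
noncomputable def rhs (n : ℕ) : ℚ :=
  2 ^ 16 / 3 ^ 6 * (((2 * n + 7) * (2 * n + 5) ^ 2 * (2 * n + 3) * ((4 * n + 11) * (4 * n + 9) ^ 2 *
    (4 * n + 7) ^ 2 * (4 * n + 5) ^ 2 * (4 * n + 3))) /
    ((3 * n + 10) * (3 * n + 8) ^ 3 * (3 * n + 7) ^ 2 * (3 * n + 5) ^ 2 * (3 * n + 4) ^ 3 * (3 * n + 2)))

lemma rForm_mul (n : ℕ) : rForm 1 n * rForm 0 (n + 1) = rhs n := by
  unfold rForm rhs
  push_cast
  have a1 : (n : ℚ) + 1 ≠ 0 := by positivity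
  have a2 : (n : ℚ) + 2 ≠ 0 := by positivity
  have a3 : (n : ℚ) + 3 ≠ 0 := by positivity
  have b : ∀ k : ℕ, (3 * (n : ℚ) + (k + 1 : ℕ)) ≠ 0 := by intro k; positivity
  have c : ∀ k : ℕ, (2 * (n : ℚ) + (k + 1 : ℕ)) ≠ 0 := by intro k; positivity
  have b2 := b 1
  have b3 := b 2
  have b4 := b 3
  have b5 := b 4
  have b6 := b 5
  have b7 := b 6
  have b8 := b 7
  have b9 := b 8
  have b10 := b 9
  have c2 := c 1
  have c3 := c 2
  have c4 := c 3
  have c5 := c 4
  have c6 := c 5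
  push_cast at b2 b3 b4 b5 b6 b7 b8 b9 b10 c2 c3 c4 c5 c6
  rw [div_mul_div_comm, ← mul_div_assoc, div_eq_div_iff]
  · ring
  · have : (0 : ℚ) ≤ n := by positivity
    positivity
  · positivity

theorem third_quotient (n : ℕ) :
    tVal n * tVal (n + 3) / (tVal (n + 1) * tVal (n + 2)) = rhs n := by
  have hc : ∀ e m, (catDet e m : ℚ) = dForm e m := fun e m => catDet_eq e m
  unfold tVal
  simp only [hc]
  have h1 : dForm 1 (n + 3) * dForm 1 n = dForm 1 (n + 1) * dForm 1 (n + 2) * rForm 1 n := by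
    rw [dForm_succ 1 (n + 2), hForm_add_two, dForm_succ 1 n]
    ring
  have h0 : dForm 0 (n + 3 + 1) * dForm 0 (n + 1) =
      dForm 0 (n + 1 + 1) * dForm 0 (n + 2 + 1) * rForm 0 (n + 1) := by
    rw [dForm_succ 0 (n + 3), show n + 3 = (n + 1) + 2 from rfl, hForm_add_two, dForm_succ 0 (n + 1)]
    ring
  have p1 := (dForm_pos 1 (n + 1)).ne'
  have p2 := (dForm_pos 1 (n + 2)).ne'
  have p3 := (dForm_pos 0 (n + 1 + 1)).ne'
  have p4 := (dForm_pos 0 (n + 2 + 1)).ne'
  rw [div_eq_iff (by positivity), ← rForm_mul]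
  calc _ = 2 ^ n * 2 ^ (n + 3) * (dForm 1 (n + 3) * dForm 1 n) * (dForm 0 (n + 3 + 1) * dForm 0 (n + 1)) := by ring
    _ = _ := by
      rw [h1, h0]
      ring

end Pool.Agent.H43.Benzel
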