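import Pool.Agent.H43.Benzel.KDet
import Pool.Agent.H3.Benzel.Sign

/-!
# The third quotient for the matching numbers `M n`
-/

namespace Pool.Agent.H43.Benzel

theorem M_eq_tVal (n : ℕ) (hn : 1 ≤ n) : (M n : ℚ) = tVal n := by
  let e : RCell n ≃ QCell n :=
    (Equiv.ofBijective _ (rfun_bij n hn)).symm.trans (Equiv.ofBijective _ (qfun_bij n hn))
  have h1 := abs_det_kmat n e
  have h2 := abs_det_kmat_tVal n hn e
  rw [← h2, h1]
  push_cast
  rfl

/-- Product formula for `M n`. -/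
theorem M_eq (n : ℕ) (hn : 1 ≤ n) : (M n : ℚ) = 2 ^ n * dForm 1 n * dForm 0 (n + 1) := by
  have hc : ∀ e m, (catDet e m : ℚ) = dForm e m := fun e m => catDet_eq e m
  rw [M_eq_tVal n hn]
  unfold tVal
  rw [hc, hc]

theorem M_pos (n : ℕ) (hn : 1 ≤ n) : 0 < M n := by
  have h := M_eq n hn
  have h1 := dForm_pos 1 n
  have h2 := dForm_pos 0 (n + 1)
  have : (0 : ℚ) < M n := by rw [h]; positivity
  exact_mod_cast this

theorem M_third_quotient (n : ℕ) (hn : 1 ≤ n) :
    ((M n : ℚ) * M (n + 3)) / (M (n + 1) * M (n + 2)) = rhs n := by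
  rw [M_eq_tVal n hn, M_eq_tVal (n + 1) (by omega), M_eq_tVal (n + 2) (by omega),
    M_eq_tVal (n + 3) (by omega)]
  exact third_quotient n

end Pool.Agent.H43.Benzel
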