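import Pool.Agent.H43.Benzel.CatDet

/-!
# The determinant of path counts and the Catalan determinants

`cpath N h` counts the lattice paths from `(0,0)` to `(N,h)` with steps `(1,1)`, `(1,-1)`, `(2,0)`
staying weakly above the axis.  We show
`|det (cpath (2n+2i) (2j))_{i,j ≤ n}| = 2^n * |catDet 1 n| * |catDet 0 (n+1)|`.
-/

namespace Pool.Agent.H43.Benzel

open Finset Matrix Polynomial

/-- Schröder-like path counts. -/
def cpath : ℕ → ℕ → ℤ
  | 0, h => if h = 0 then 1 else 0
  | 1, h => if h = 1 then 1 else 0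
  | (N + 2), h => (if h = 0 then 0 else cpath (N + 1) (h - 1)) + cpath (N + 1) (h + 1) + cpath N h

lemma cpath_step (N h : ℕ) :
    cpath (N + 2) (h + 1) = cpath (N + 1) h + cpath (N + 1) (h + 2) + cpath N (h + 1) := by
  rw [cpath]
  simp

lemma cpath_step_zero (N : ℕ) : cpath (N + 2) 0 = cpath (N + 1) 1 + cpath N 0 := by
  rw [cpath]
  simp

lemma cpath_double (N h : ℕ) : cpath (N + 4) (h + 2) =
    cpath (N + 2) h + 4 * cpath (N + 2) (h + 2) + cpath (N + 2) (h + 4) - cpath N (h + 2) := by
  have h1 := cpath_step (N + 2) (h + 1)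
  have h2 := cpath_step (N + 1) h
  have h3 := cpath_step (N + 1) (h + 2)
  have h4 := cpath_step N (h + 1)
  norm_num [add_assoc] at h1 h2 h3 h4 ⊢
  linarith

lemma cpath_double_zero (N : ℕ) : cpath (N + 4) 0 =
    3 * cpath (N + 2) 0 + cpath (N + 2) 2 - cpath N 0 := by
  have h1 := cpath_step_zero (N + 2)
  have h2 := cpath_step (N + 1) 0
  have h4 := cpath_step_zero N
  norm_num [add_assoc] at h1 h2 h4 ⊢
  linarith

/-- `V_{2a}` in the variable `Y = y²`. -/
noncomputable def vPoly : ℕ → ℚ[X]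
  | 0 => 1
  | 1 => X + 1
  | (a + 2) => (X + 2) * vPoly (a + 1) - vPoly a

lemma X_mul_sPoly_zero : (X : ℚ[X]) * sPoly 0 = sPoly 1 + sPoly 0 := by
  simp [sPoly]

lemma X_mul_sPoly_succ (l : ℕ) :
    (X : ℚ[X]) * sPoly (l + 1) = sPoly (l + 2) + 2 * sPoly (l + 1) + sPoly l := by
  rw [show sPoly (l + 2) = (X - 2) * sPoly (l + 1) - sPoly l from rfl]
  ring

lemma bal_zero_left (l : ℕ) : bal 0 l = if l = 0 then 1 else 0 := by
  unfold bal
  cases l with
  | zero => simp
  | succ k => simp

lemma mom_two_mul (N : ℕ) (p : ℚ[X]) : mom N (2 * p) = 2 * mom N p := by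
  have : (2 : ℚ[X]) * p = (2 : ℚ) • p := by
    rw [Polynomial.smul_eq_C_mul]; rfl
  rw [this, map_smul, smul_eq_mul]

lemma mom_vs (a l : ℕ) : mom 0 (vPoly a * sPoly l) = (cpath (2 * a) (2 * l) : ℚ) := by
  induction a using Nat.strong_induction_on generalizing l with
  | _ a ih =>
    match a with
    | 0 =>
      rw [vPoly, one_mul, mom_sPoly, bal_zero_left]
      simp only [cpath]
      split_ifs with h1 h2 <;> first | rfl | simp_all
    | 1 =>
      rw [vPoly]
      match l with
      | 0 =>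
        rw [add_mul, X_mul_sPoly_zero, one_mul, map_add, map_add, mom_sPoly, mom_sPoly,
          bal_zero_left, bal_zero_left]
        simp only [cpath]
        norm_num
      | (k + 1) =>
        rw [add_mul, X_mul_sPoly_succ, one_mul, map_add, map_add, map_add, mom_two_mul,
          mom_sPoly, mom_sPoly, mom_sPoly, bal_zero_left, bal_zero_left, bal_zero_left]
        have : cpath (2 * 1) (2 * (k + 1)) = cpath 1 (2 * k + 1) + cpath 1 (2 * k + 3) + cpath 0 (2 * k + 2) := by
          have := cpath_step 0 (2 * k + 1)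
          exact this
        rw [this]
        simp only [cpath]
        by_cases hk : k = 0
        · subst hk; norm_num
        · have e1 : ¬ (2 * k + 1 = 1) := by omega
          have e2 : ¬ (2 * k + 3 = 1) := by omega
          simp [hk, e2]
    | (b + 2) =>
      rw [vPoly, sub_mul, map_sub, ih b (by omega)]
      match l with
      | 0 =>
        have h1 : (X + 2) * vPoly (b + 1) * sPoly 0 =
            vPoly (b + 1) * sPoly 1 + vPoly (b + 1) * sPoly 0 + 2 * (vPoly (b + 1) * sPoly 0) := by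
          linear_combination (vPoly (b + 1)) * X_mul_sPoly_zero
        rw [h1, map_add, map_add, mom_two_mul, ih (b + 1) (by omega), ih (b + 1) (by omega)]
        have := cpath_double_zero (2 * b)
        have e1 : 2 * (b + 2) = 2 * b + 4 := by ring
        have e2 : 2 * (b + 1) = 2 * b + 2 := by ring
        rw [e1, e2, mul_zero, this]
        push_cast
        ring
      | (k + 1) =>
        have h1 : (X + 2) * vPoly (b + 1) * sPoly (k + 1) =
            vPoly (b + 1) * sPoly (k + 2) + 2 * (2 * (vPoly (b + 1) * sPoly (k + 1))) +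
              vPoly (b + 1) * sPoly k := by
          linear_combination (vPoly (b + 1)) * X_mul_sPoly_succ k
        rw [h1, map_add, map_add, mom_two_mul, mom_two_mul, ih (b + 1) (by omega),
          ih (b + 1) (by omega), ih (b + 1) (by omega)]
        have := cpath_double (2 * b) (2 * k)
        have e1 : 2 * (b + 2) = 2 * b + 4 := by ring
        have e2 : 2 * (b + 1) = 2 * b + 2 := by ring
        have e3 : 2 * (k + 2) = 2 * k + 4 := by ring
        have e4 : 2 * (k + 1) = 2 * k + 2 := by ring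
        rw [e1, e2, e3, e4, this]
        push_cast
        ring

lemma mom_mul_eq_sum (p q : ℚ[X]) : mom 0 (p * q) = p.sum (fun k c => c * mom k q) := by
  have key : ∀ k : ℕ, ∀ N : ℕ, mom N (X ^ k * q) = mom (N + k) q := by
    intro k
    induction k with
    | zero => intro N; simp
    | succ k ih =>
      intro N
      rw [pow_succ', mul_assoc, mom_X_mul, ih]
      congr 2
      ring
  induction p using Polynomial.induction_on' with
  | add p r hp hr =>
    rw [add_mul, map_add, hp, hr, Polynomial.sum_add_index]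
    · intro i; simp
    · intro i a b; ring
  | monomial n a =>
    rw [Polynomial.sum_monomial_index _ _ (by simp), ← Polynomial.C_mul_X_pow_eq_monomial,
      mul_assoc, ← Polynomial.smul_eq_C_mul, map_smul, key, smul_eq_mul, zero_add]

lemma bal_lt (k b : ℕ) (h : k < b) : bal k b = 0 := by
  unfold bal
  rw [Nat.descFactorial_eq_zero_iff_lt.mpr h]
  simp

lemma bal_self (b : ℕ) : bal b b = 1 := by
  unfold bal
  rw [Nat.descFactorial_self]
  have : b + b + 1 = 2 * b + 1 := by ring
  rw [this, Nat.factorial_succ]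
  have h1 : (b.factorial : ℚ) ≠ 0 := by positivity
  have h2 : ((2 * b).factorial : ℚ) ≠ 0 := by positivity
  push_cast
  field_simp

lemma mom_ss_lt (a b : ℕ) (h : a < b) : mom 0 (sPoly a * sPoly b) = 0 := by
  rw [mom_mul_eq_sum, Polynomial.sum_over_range _ (by simp)]
  apply Finset.sum_eq_zero
  intro k hk
  rw [(sPoly_monic_natDegree a).2, Finset.mem_range] at hk
  rw [mom_sPoly, bal_lt k b (by omega), mul_zero]

lemma mom_ss_self (b : ℕ) : mom 0 (sPoly b * sPoly b) = 1 := by
  rw [mom_mul_eq_sum, Polynomial.sum_over_range _ (by simp), (sPoly_monic_natDegree b).2,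
    Finset.sum_range_succ, mom_sPoly, bal_self, mul_one]
  have h := (sPoly_monic_natDegree b).1.coeff_natDegree
  rw [(sPoly_monic_natDegree b).2] at h
  rw [h, Finset.sum_eq_zero, zero_add]
  intro k hk
  rw [Finset.mem_range] at hk
  rw [mom_sPoly, bal_lt k b hk, mul_zero]

lemma vPoly_monic_natDegree (b : ℕ) : (vPoly b).Monic ∧ (vPoly b).natDegree = b := by
  induction b using Nat.strong_induction_on with
  | _ b ih =>
    match b with
    | 0 => exact ⟨by rw [vPoly]; exact monic_one, by rw [vPoly]; simp⟩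
    | 1 =>
      have : (X + 1 : ℚ[X]) = X + C 1 := by simp
      refine ⟨by rw [vPoly, this]; exact monic_X_add_C 1, by rw [vPoly, this]; exact natDegree_X_add_C 1⟩
    | (c + 2) =>
      obtain ⟨m1, d1⟩ := ih (c + 1) (by omega)
      obtain ⟨m0, d0⟩ := ih c (by omega)
      have h2 : (X + 2 : ℚ[X]) = X + C 2 := rfl
      have hm : ((X + 2 : ℚ[X]) * vPoly (c + 1)).Monic := by
        rw [h2]; exact (monic_X_add_C 2).mul m1
      have hd : ((X + 2 : ℚ[X]) * vPoly (c + 1)).natDegree = c + 2 := by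
        rw [h2, (monic_X_add_C (2 : ℚ)).natDegree_mul m1, natDegree_X_add_C, d1]; ring
      have hlt : (vPoly c).degree < ((X + 2 : ℚ[X]) * vPoly (c + 1)).degree := by
        rw [degree_eq_natDegree m0.ne_zero, degree_eq_natDegree hm.ne_zero, d0, hd]
        exact_mod_cast (by omega : c < c + 2)
      rw [vPoly]
      refine ⟨hm.sub_of_left hlt, ?_⟩
      rw [natDegree_sub_eq_left_of_natDegree_lt (by rw [d0, hd]; omega), hd]

lemma vPoly_comp_neg (a : ℕ) : (vPoly a).comp (-X) = (-1) ^ a * sPoly a := by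
  induction a using Nat.strong_induction_on with
  | _ a ih =>
    match a with
    | 0 => simp [vPoly, sPoly]
    | 1 => simp [vPoly, sPoly]; ring
    | (c + 2) =>
      rw [vPoly, sub_comp, mul_comp, ih (c + 1) (by omega), ih c (by omega), sPoly]
      simp only [add_comp, X_comp, ofNat_comp]
      ring

/-- the alternating moment functional `Y^k ↦ (-1)^k catalan k`. -/
noncomputable def momA (p : ℚ[X]) : ℚ := mom 0 (p.comp (-X))

lemma momA_vv (a b : ℕ) : momA (vPoly a * vPoly b) = if a = b then 1 else 0 := by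
  unfold momA
  rw [mul_comp, vPoly_comp_neg, vPoly_comp_neg]
  have h : ((-1) ^ a * sPoly a * ((-1) ^ b * sPoly b) : ℚ[X]) = ((-1 : ℚ) ^ (a + b)) • (sPoly a * sPoly b) := by
    rw [Polynomial.smul_eq_C_mul]
    simp only [map_pow, map_neg, map_one]
    ring
  rw [h, map_smul, smul_eq_mul]
  rcases lt_trichotomy a b with hab | hab | hab
  · rw [mom_ss_lt a b hab, if_neg hab.ne, mul_zero]
  · subst hab
    rw [mom_ss_self, if_pos rfl, ← two_mul, pow_mul]
    norm_num
  · rw [mul_comm (sPoly a), mom_ss_lt b a hab, if_neg hab.ne', mul_zero]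


/-- row reindexing `i ↦ n + i`, `b ↦ b` -/
def eTop (n : ℕ) : Fin (n + 1) ⊕ Fin n ≃ Fin (2 * n + 1) where
  toFun := Sum.elim (fun i => ⟨n + i.1, by omega⟩) (fun b => ⟨b.1, by omega⟩)
  invFun a := if h : a.1 < n then Sum.inr ⟨a.1, h⟩ else Sum.inl ⟨a.1 - n, by omega⟩
  left_inv := by
    rintro (i | b)
    · simp
    · simp
  right_inv := by
    intro a
    dsimp only
    split_ifs with h
    · simp
    · simp only [Sum.elim_inl]
      apply Fin.ext
      simp only
      omega

/-- the map `i ↦ 2 i`, `b ↦ 2 b + 1` -/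
def fPar (n : ℕ) : Fin (n + 1) ⊕ Fin n → Fin (2 * n + 1)
  | Sum.inl i => ⟨2 * i.1, by omega⟩
  | Sum.inr b => ⟨2 * b.1 + 1, by omega⟩

lemma fPar_bij (n : ℕ) : Function.Bijective (fPar n) := by
  rw [Fintype.bijective_iff_injective_and_card]
  refine ⟨?_, by simp only [Fintype.card_sum, Fintype.card_fin]; omega⟩
  rintro (i | b) (j | c) h
  · simp only [fPar, Fin.mk.injEq] at h
    congr 1
    apply Fin.ext
    omega
  · simp only [fPar, Fin.mk.injEq] at h
    omega
  · simp only [fPar, Fin.mk.injEq] at h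
    omega
  · simp only [fPar, Fin.mk.injEq] at h
    congr 1
    apply Fin.ext
    omega

/-- row reindexing `i ↦ 2 i`, `b ↦ 2 b + 1` -/
noncomputable def ePar (n : ℕ) : Fin (n + 1) ⊕ Fin n ≃ Fin (2 * n + 1) :=
  Equiv.ofBijective (fPar n) (fPar_bij n)

/-- the matrix `W₁` -/
noncomputable def wOne (n : ℕ) : Matrix (Fin (2 * n + 1)) (Fin (n + 1) ⊕ Fin n) ℚ :=
  Matrix.of fun a c => Sum.elim (fun l : Fin (n + 1) => mom 0 (vPoly a.1 * sPoly l.1))
    (fun b : Fin n => momA (vPoly a.1 * vPoly b.1)) c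

/-- the matrix `H₀` -/
noncomputable def hZero (n : ℕ) : Matrix (Fin (2 * n + 1)) (Fin (n + 1) ⊕ Fin n) ℚ :=
  Matrix.of fun a c => Sum.elim (fun l : Fin (n + 1) => (catalan (a.1 + l.1) : ℚ))
    (fun b : Fin n => (-1) ^ (a.1 + b.1) * (catalan (a.1 + b.1) : ℚ)) c

/-- coefficient matrix of a family of polynomials -/
noncomputable def cMat (p : ℕ → ℚ[X]) (N : ℕ) : Matrix (Fin N) (Fin N) ℚ :=
  Matrix.of fun j b => (p b.1).coeff j.1

lemma det_cMat (p : ℕ → ℚ[X]) (hp : ∀ b, (p b).Monic ∧ (p b).natDegree = b) (N : ℕ) :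
    (cMat p N).det = 1 := by
  rw [Matrix.det_of_isUpperTriangular]
  · apply Finset.prod_eq_one
    intro i _
    have h := (hp i.1).1.coeff_natDegree
    rw [(hp i.1).2] at h
    simpa [cMat] using h
  · intro i j hij
    simp only [id] at hij
    simp only [cMat, Matrix.of_apply]
    apply Polynomial.coeff_eq_zero_of_natDegree_lt
    rw [(hp j.1).2]
    exact hij

lemma mom_mul_double (p q : ℚ[X]) (N K : ℕ) (hp : p.natDegree < N) (hq : q.natDegree < K) :
    mom 0 (p * q) = ∑ i : Fin N, ∑ j : Fin K, p.coeff i.1 * (catalan (i.1 + j.1) : ℚ) * q.coeff j.1 := by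
  rw [mom_mul_eq_sum, Polynomial.sum_over_range' _ (by simp) N hp,
    ← Fin.sum_univ_eq_sum_range (fun k => p.coeff k * mom k q) N]
  apply Finset.sum_congr rfl
  intro i _
  rw [mom_apply, Polynomial.sum_over_range' _ (by simp) K hq,
    ← Fin.sum_univ_eq_sum_range (fun k => q.coeff k * (catalan (i.1 + k) : ℚ)) K, Finset.mul_sum]
  apply Finset.sum_congr rfl
  intro j _
  ring

lemma coeff_comp_neg_X (p : ℚ[X]) (k : ℕ) : (p.comp (-X)).coeff k = (-1) ^ k * p.coeff k := by
  have h : (-X : ℚ[X]) = C (-1) * X := by simp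
  rw [h, Polynomial.comp_C_mul_X_coeff, mul_comm]

lemma momA_mul_double (p q : ℚ[X]) (N K : ℕ) (hp : p.natDegree < N) (hq : q.natDegree < K) :
    momA (p * q) = ∑ i : Fin N, ∑ j : Fin K,
      p.coeff i.1 * ((-1) ^ (i.1 + j.1) * (catalan (i.1 + j.1) : ℚ)) * q.coeff j.1 := by
  unfold momA
  have hn : ∀ r : ℚ[X], (r.comp (-X)).natDegree = r.natDegree := by
    intro r
    rw [natDegree_comp]
    simp
  rw [mul_comp, mom_mul_double _ _ N K (by rw [hn]; exact hp) (by rw [hn]; exact hq)]
  apply Finset.sum_congr rfl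
  intro i _
  apply Finset.sum_congr rfl
  intro j _
  rw [coeff_comp_neg_X, coeff_comp_neg_X, pow_add]
  ring

lemma wOne_eq (n : ℕ) : wOne n = (cMat vPoly (2 * n + 1))ᵀ * hZero n *
    Matrix.fromBlocks (cMat sPoly (n + 1)) 0 0 (cMat vPoly n) := by
  ext a c
  rw [Matrix.mul_apply, Fintype.sum_sum_type]
  rcases c with l | b
  · simp only [Matrix.fromBlocks_apply₁₁, Matrix.fromBlocks_apply₂₁, Matrix.zero_apply, mul_zero,
      Finset.sum_const_zero, add_zero]
    simp only [wOne, Matrix.of_apply, Sum.elim_inl]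
    rw [mom_mul_double _ _ (2 * n + 1) (n + 1)
      (by rw [(vPoly_monic_natDegree a.1).2]; exact a.2)
      (by rw [(sPoly_monic_natDegree l.1).2]; exact l.2), Finset.sum_comm]
    apply Finset.sum_congr rfl
    intro j _
    rw [Matrix.mul_apply, Finset.sum_mul]
    apply Finset.sum_congr rfl
    intro i _
    simp [cMat, hZero]
  · simp only [Matrix.fromBlocks_apply₁₂, Matrix.fromBlocks_apply₂₂, Matrix.zero_apply, mul_zero,
      Finset.sum_const_zero, zero_add]
    simp only [wOne, Matrix.of_apply, Sum.elim_inr]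
    rw [momA_mul_double _ _ (2 * n + 1) n
      (by rw [(vPoly_monic_natDegree a.1).2]; exact a.2)
      (by rw [(vPoly_monic_natDegree b.1).2]; exact b.2), Finset.sum_comm]
    apply Finset.sum_congr rfl
    intro j _
    rw [Matrix.mul_apply, Finset.sum_mul]
    apply Finset.sum_congr rfl
    intro i _
    simp [cMat, hZero]

/-- the path matrix -/
noncomputable def pathMat (n : ℕ) : Matrix (Fin (n + 1)) (Fin (n + 1)) ℤ :=
  Matrix.of fun i j => cpath (2 * n + 2 * i.1) (2 * j.1)

lemma det_wOne_top (n : ℕ) :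
    ((wOne n).submatrix (eTop n) id).det = ((pathMat n).det : ℚ) := by
  have h1 : (wOne n).submatrix (eTop n) id =
      Matrix.fromBlocks ((pathMat n).map (Int.cast : ℤ → ℚ)) 0
        (Matrix.of fun (b : Fin n) (l : Fin (n + 1)) => mom 0 (vPoly b.1 * sPoly l.1)) 1 := by
    ext x y
    rcases x with i | b <;> rcases y with l | c
    · simp only [Matrix.submatrix_apply, wOne, Matrix.of_apply, id, Sum.elim_inl,
        Matrix.fromBlocks_apply₁₁, Matrix.map_apply, pathMat, eTop, Equiv.coe_fn_mk]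
      rw [mom_vs]
      congr 2
      ring
    · simp only [Matrix.submatrix_apply, wOne, Matrix.of_apply, id, Sum.elim_inl, Sum.elim_inr,
        Matrix.fromBlocks_apply₁₂, eTop, Equiv.coe_fn_mk, Matrix.zero_apply]
      rw [momA_vv, if_neg]
      omega
    · simp [wOne, eTop]
    · simp only [Matrix.submatrix_apply, wOne, Matrix.of_apply, id, Sum.elim_inr,
        Matrix.fromBlocks_apply₂₂, eTop, Equiv.coe_fn_mk]
      rw [momA_vv, Matrix.one_apply]
      simp only [Fin.ext_iff]
  rw [h1, Matrix.det_fromBlocks_zero₁₂, Matrix.det_one, mul_one]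
  exact ((Int.castRingHom ℚ).map_det (pathMat n)).symm

lemma abs_det_wOne (n : ℕ) : |((wOne n).submatrix (ePar n) id).det| = |((pathMat n).det : ℚ)| := by
  rw [← det_wOne_top]
  have : (wOne n).submatrix (ePar n) id =
      ((wOne n).submatrix (eTop n) id).submatrix ((ePar n).trans (eTop n).symm) (Equiv.refl _) := by
    ext x y
    simp
  rw [this, Matrix.abs_det_submatrix_equiv_equiv]

lemma det_wOne_par (n : ℕ) : |((wOne n).submatrix (ePar n) id).det| =
    2 ^ n * |(catDet 1 n : ℚ)| * |(catDet 0 (n + 1) : ℚ)| := by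
  have h1 : (wOne n).submatrix (ePar n) id =
      ((cMat vPoly (2 * n + 1))ᵀ.submatrix (ePar n) (ePar n)) * ((hZero n).submatrix (ePar n) id) *
      Matrix.fromBlocks (cMat sPoly (n + 1)) 0 0 (cMat vPoly n) := by
    rw [wOne_eq, Matrix.submatrix_mul_equiv, Matrix.submatrix_mul _ _ (ePar n) id id Function.bijective_id]
    rfl
  rw [h1, Matrix.det_mul, Matrix.det_mul, Matrix.det_submatrix_equiv_self, Matrix.det_transpose,
    det_cMat _ vPoly_monic_natDegree, Matrix.det_fromBlocks_zero₂₁,
    det_cMat _ vPoly_monic_natDegree, det_cMat _ sPoly_monic_natDegree]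
  simp only [one_mul, mul_one]
  set A : Matrix (Fin (n + 1)) (Fin (n + 1)) ℚ :=
    Matrix.of fun a l => (catalan (2 * a.1 + 0 + l.1) : ℚ) with hA
  set C : Matrix (Fin n) (Fin (n + 1)) ℚ :=
    Matrix.of fun a l => (catalan (2 * a.1 + 1 + l.1) : ℚ) with hC
  set J : Matrix (Fin (n + 1)) (Fin n) ℚ :=
    Matrix.of fun l b => if l.1 = b.1 then (-1) ^ b.1 else 0 with hJ
  set O : Matrix (Fin n) (Fin n) ℚ :=
    Matrix.of fun a b => (catalan (2 * a.1 + 1 + b.1) : ℚ) with hO
  have hAJ : ∀ (a : ℕ) (b : Fin n), ∑ l : Fin (n + 1), (catalan (a + l.1) : ℚ) * J l b =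
      (-1) ^ b.1 * (catalan (a + b.1) : ℚ) := by
    intro a b
    rw [Finset.sum_eq_single (⟨b.1, by omega⟩ : Fin (n + 1))]
    · simp [hJ, mul_comm]
    · intro l _ hl
      have : ¬ (l.1 = b.1) := fun h => hl (Fin.ext h)
      simp [hJ, this]
    · simp
  have h2 : (hZero n).submatrix (ePar n) id * Matrix.fromBlocks 1 (-J) 0 1 =
      Matrix.fromBlocks A 0 C (Matrix.of fun a b => (-2 * (-1) ^ b.1) * O a b) := by
    have h3 : (hZero n).submatrix (ePar n) id = Matrix.fromBlocks A
        (Matrix.of fun a b => (-1) ^ b.1 * (catalan (2 * a.1 + 0 + b.1) : ℚ)) C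
        (Matrix.of fun a b => -((-1) ^ b.1 * O a b)) := by
      ext x y
      rcases x with i | b <;> rcases y with l | c
      · simp [hZero, ePar, fPar, hA]
      · simp [hZero, ePar, fPar, pow_add, pow_mul]
      · simp [hZero, ePar, fPar, hC]
      · simp [hZero, ePar, fPar, hO, pow_add, pow_mul]
    rw [h3, Matrix.fromBlocks_multiply]
    simp only [Matrix.mul_one, Matrix.mul_zero, add_zero, Matrix.mul_neg]
    congr 1
    · ext a b
      simp only [Matrix.add_apply, Matrix.neg_apply, Matrix.mul_apply, Matrix.zero_apply, hA,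
        Matrix.of_apply]
      rw [hAJ]
      ring
    · ext a b
      simp only [Matrix.add_apply, Matrix.neg_apply, Matrix.mul_apply, hC,
        Matrix.of_apply]
      rw [hAJ]
      simp only [hO, Matrix.of_apply]
      ring
  have h4 : ((hZero n).submatrix (ePar n) id).det = A.det * ((∏ b : Fin n, (-2 * (-1) ^ b.1 : ℚ)) * O.det) := by
    have h5 := congrArg Matrix.det h2
    rw [Matrix.det_mul, Matrix.det_fromBlocks_zero₂₁, Matrix.det_one, Matrix.det_one, mul_one,
      mul_one, Matrix.det_fromBlocks_zero₁₂, Matrix.det_mul_row] at h5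
    exact h5
  have hc : ∀ e m : ℕ, (catDet e m : ℚ) =
      Matrix.det (Matrix.of fun (a b : Fin m) => (catalan (2 * a.1 + e + b.1) : ℚ)) := by
    intro e m
    have := (Int.castRingHom ℚ).map_det
      (Matrix.of fun (a b : Fin m) => (catalan (2 * a.1 + e + b.1) : ℤ))
    unfold catDet
    refine Eq.trans this ?_
    congr 1
  rw [h4, hc 1 n, hc 0 (n + 1), abs_mul, abs_mul, Finset.abs_prod]
  have h6 : ∏ b : Fin n, |(-2 * (-1) ^ b.1 : ℚ)| = 2 ^ n := by
    rw [Finset.prod_congr rfl (g := fun _ => (2 : ℚ))]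
    · simp
    · intro b _
      rw [abs_mul, abs_pow]
      norm_num
  rw [h6]
  ring

lemma catDet_pos (e m : ℕ) : (0 : ℚ) < (catDet e m : ℚ) := by
  rw [catDet_eq]
  exact dForm_pos e m

/-- The determinant of path counts. -/
theorem abs_det_pathMat (n : ℕ) : |((pathMat n).det : ℚ)| = tVal n := by
  rw [← abs_det_wOne, det_wOne_par, abs_of_pos (catDet_pos 1 n), abs_of_pos (catDet_pos 0 (n + 1))]
  rfl

end Pool.Agent.H43.Benzel
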