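import Pool.Agent.H43.Benzel.Mid
import Pool.Agent.H43.Benzel.PathDet

/-!
# The Kasteleyn determinant is the determinant of path counts

`|det (kmat n e)| = |det (cpath (2n+2i) (2j))_{i,j ≤ n}|` for `n ≥ 1`.
-/

namespace Pool.Agent.H43.Benzel

open Finset Matrix

lemma cpath_eq_zero : ∀ (N h : ℕ), N < h → cpath N h = 0
  | 0, h, hh => by rw [cpath, if_neg (by omega)]
  | 1, h, hh => by rw [cpath, if_neg (by omega)]
  | (N + 2), 0, hh => by omega
  | (N + 2), (h + 1), hh => by
    rw [cpath_step, cpath_eq_zero (N + 1) h (by omega), cpath_eq_zero (N + 1) (h + 2) (by omega),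
      cpath_eq_zero N (h + 1) (by omega)]
    rfl

lemma cpath_self : ∀ (N : ℕ), cpath N N = 1
  | 0 => by rw [cpath, if_pos rfl]
  | 1 => by rw [cpath, if_pos rfl]
  | (N + 2) => by
    rw [cpath_step N (N + 1), cpath_self (N + 1), cpath_eq_zero (N + 1) (N + 1 + 2) (by omega),
      cpath_eq_zero N (N + 1 + 1) (by omega)]
    rfl

/-- path counts extended by zero to integer arguments -/
def cext (N h : ℤ) : ℤ := if 0 ≤ N ∧ 0 ≤ h then cpath N.toNat h.toNat else 0

lemma cext_of_nonneg (N h : ℕ) : cext N h = cpath N h := by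
  unfold cext
  rw [if_pos ⟨by positivity, by positivity⟩]
  simp

lemma cext_neg_left (N h : ℤ) (hN : N < 0) : cext N h = 0 := by
  unfold cext
  rw [if_neg (by omega)]

lemma cext_neg_right (N h : ℤ) (hh : h < 0) : cext N h = 0 := by
  unfold cext
  rw [if_neg (by omega)]

lemma cext_lt (N h : ℤ) (hN : N < h) : cext N h = 0 := by
  by_cases h0 : 0 ≤ N ∧ 0 ≤ h
  · unfold cext
    rw [if_pos h0]
    apply cpath_eq_zero
    omega
  · unfold cext
    rw [if_neg h0]

lemma cext_rec (N h : ℤ) (hh : -1 ≤ h) (hN : N ≠ -1) :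
    cext (N + 1) (h + 1) = cext N h + cext N (h + 2) + cext (N - 1) (h + 1) := by
  rcases lt_or_ge N 0 with h1 | h1
  · rw [cext_neg_left (N + 1) _ (by omega), cext_neg_left N _ h1, cext_neg_left N _ h1,
      cext_neg_left (N - 1) _ (by omega)]
    rfl
  · obtain ⟨m, rfl⟩ := Int.eq_ofNat_of_zero_le h1
    obtain ⟨k, hk⟩ := Int.eq_ofNat_of_zero_le (by omega : 0 ≤ h + 1)
    have e1 : ((m : ℤ) + 1) = ((m + 1 : ℕ) : ℤ) := by push_cast; ring
    have e2 : h + 2 = ((k + 1 : ℕ) : ℤ) := by push_cast; linarith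
    rw [hk, e1, e2, cext_of_nonneg, cext_of_nonneg]
    rcases m with _ | m
    · rw [cext_neg_left (((0 : ℕ) : ℤ) - 1) _ (by norm_num)]
      rcases k with _ | k
      · rw [cext_neg_right _ h (by simp at hk; omega)]
        simp [cpath]
      · have e3 : h = (k : ℤ) := by push_cast at hk; linarith
        rw [e3, cext_of_nonneg]
        have e5 : (k + 1 + 1 : ℕ) ≠ 0 := by omega
        simp [cpath]
    · have e4 : (((m + 1 : ℕ) : ℤ) - 1) = (m : ℤ) := by push_cast; ring
      rw [e4, cext_of_nonneg]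
      rcases k with _ | k
      · rw [cext_neg_right _ h (by simp at hk; omega), cpath_step_zero]
        ring
      · have e3 : h = (k : ℤ) := by push_cast at hk; linarith
        rw [e3, cext_of_nonneg, cpath_step]

/-- the value of the `i`-th test function at the cell with (integer) coordinates `(k,r)`,
without the sign -/
def gv (n : ℕ) (i : ℕ) (k r : ℤ) : ℤ := cext (k + r - n + 2 * i) (n + k - r)

lemma gv_rec (n i : ℕ) (k q : ℤ) (h1 : q ≤ n + k + 1) (h2 : 0 ≤ k) :
    gv n i k q + gv n i k (q - 1) + gv n i (k + 1) (q - 1) = gv n i (k + 1) q := by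
  unfold gv
  have h3 : k + q - n + 2 * i = -1 → False ∨ (n : ℤ) + k - q ≠ -1 := by
    intro h; right; intro h'; omega
  by_cases hN : k + q - n + 2 * (i : ℤ) = -1
  · have h4 : (0 : ℤ) ≤ n + k - q := by
      rcases h3 hN with h | h
      · exact h.elim
      · omega
    rw [cext_neg_left _ _ (by omega), cext_neg_left _ _ (by omega), cext_neg_left _ _ (by omega),
      cext_lt _ _ (by omega)]
    rfl
  · have := cext_rec (k + q - n + 2 * i) (n + k - q) (by omega) hN
    have e1 : k + 1 + q - n + 2 * (i : ℤ) = k + q - n + 2 * i + 1 := by ring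
    have e2 : (n : ℤ) + (k + 1) - q = n + k - q + 1 := by ring
    have e3 : k + (q - 1) - n + 2 * (i : ℤ) = k + q - n + 2 * i - 1 := by ring
    have e4 : (n : ℤ) + k - (q - 1) = n + k - q + 1 := by ring
    have e5 : k + 1 + (q - 1) - n + 2 * (i : ℤ) = k + q - n + 2 * i := by ring
    have e6 : (n : ℤ) + (k + 1) - (q - 1) = n + k - q + 2 := by ring
    rw [e1, e2, e3, e4, e5, e6, this]
    ring

lemma gv_left (n i : ℕ) (hi : i ≤ n) (k : ℤ) : gv n i k (-1) = 0 := by
  unfold gv
  apply cext_lt
  omega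

lemma gv_right (n i : ℕ) (k q : ℤ) (h : (n : ℤ) + k < q) : gv n i k q = 0 := by
  unfold gv
  apply cext_neg_right
  omega

/-- values of test functions on cells -/
def fval (n i : ℕ) (x : ℕ × ℕ) : ℤ := (-1) ^ x.1 * gv n i x.1 x.2

lemma kw_eq (x : ℕ × ℕ) (k q : ℕ) : kw x (k, q) =
    (if x = (k, q) then 1 else 0) + (if x = (k, q - 1) then (if 1 ≤ q then 1 else 0) else 0) +
    (if x = (k + 1, q) then 1 else 0) - (if x = (k + 1, q - 1) then (if 1 ≤ q then 1 else 0) else 0) := by
  obtain ⟨a, b⟩ := x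
  unfold kw
  simp only [Prod.mk.injEq]
  split_ifs <;> first | rfl | omega

lemma sum_delta (n : ℕ) (f : ℕ × ℕ → ℤ) (p : ℕ × ℕ) (c : ℤ) :
    ∑ x : RCell n, f x.1 * (if x.1 = p then c else 0) =
      if p.1 ≤ 2 * n ∧ p.2 < rs n p.1 then f p * c else 0 := by
  by_cases h : p.1 ≤ 2 * n ∧ p.2 < rs n p.1
  · rw [if_pos h]
    refine (Finset.sum_eq_single (⟨p, h⟩ : RCell n) ?_ ?_).trans ?_
    · intro x _ hx
      have : x.1 ≠ p := fun h' => hx (Subtype.ext h')
      rw [if_neg this, mul_zero]
    · intro h'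
      exact (h' (Finset.mem_univ (α := RCell n) _)).elim
    · rw [if_pos rfl]
  · rw [if_neg h]
    apply Finset.sum_eq_zero
    intro x _
    have : x.1 ≠ p := by
      intro h'
      apply h
      rw [← h']
      exact x.2
    rw [if_neg this, mul_zero]

lemma sum_kw (n : ℕ) (f : ℕ × ℕ → ℤ) (k q : ℕ) :
    ∑ x : RCell n, f x.1 * kw x.1 (k, q) =
      (if k ≤ 2 * n ∧ q < rs n k then f (k, q) else 0) +
      (if k ≤ 2 * n ∧ q - 1 < rs n k then f (k, q - 1) * (if 1 ≤ q then 1 else 0) else 0) +
      (if k + 1 ≤ 2 * n ∧ q < rs n (k + 1) then f (k + 1, q) else 0) -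
      (if k + 1 ≤ 2 * n ∧ q - 1 < rs n (k + 1) then f (k + 1, q - 1) * (if 1 ≤ q then 1 else 0) else 0) := by
  simp only [kw_eq, mul_add, mul_sub, Finset.sum_add_distrib, Finset.sum_sub_distrib]
  rw [sum_delta n f (k, q) 1, sum_delta n f (k, q - 1) _, sum_delta n f (k + 1, q) 1,
    sum_delta n f (k + 1, q - 1) _]
  simp only [mul_one]

/-- the test functions are annihilated at the interior cells -/
lemma interior (n i : ℕ) (hi : i ≤ n) (k q : ℕ) (hk : k + 1 ≤ 2 * n) (hq : q < rs n (k + 1)) :
    ∑ x : RCell n, fval n i x.1 * kw x.1 (k, q) = 0 := by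
  rw [sum_kw]
  have hq1 : q ≤ n + k + 1 := by unfold rs at hq; split_ifs at hq <;> omega
  have t1 : (if k ≤ 2 * n ∧ q < rs n k then fval n i (k, q) else 0) = (-1) ^ k * gv n i k q := by
    split_ifs with h
    · rfl
    · have h' : n + k < q := by
        by_contra hc
        apply h
        refine ⟨by omega, ?_⟩
        unfold rs at hq ⊢
        split_ifs at hq ⊢ <;> omega
      rw [gv_right n i k q (by exact_mod_cast h'), mul_zero]
  have t2 : (if k ≤ 2 * n ∧ q - 1 < rs n k then fval n i (k, q - 1) * (if 1 ≤ q then 1 else 0) else 0) =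
      (-1) ^ k * gv n i k (q - 1) := by
    have h : k ≤ 2 * n ∧ q - 1 < rs n k := by
      refine ⟨by omega, ?_⟩
      unfold rs at hq ⊢
      split_ifs at hq ⊢ <;> omega
    rw [if_pos h]
    rcases q with _ | q
    · simp only [Nat.cast_zero, zero_sub]
      rw [gv_left n i hi]
      simp
    · unfold fval
      simp
  have t3 : (if k + 1 ≤ 2 * n ∧ q < rs n (k + 1) then fval n i (k + 1, q) else 0) =
      (-1) ^ (k + 1) * gv n i (k + 1) q := by
    rw [if_pos ⟨hk, hq⟩]
    unfold fval
    push_cast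
    rfl
  have t4 : (if k + 1 ≤ 2 * n ∧ q - 1 < rs n (k + 1) then
      fval n i (k + 1, q - 1) * (if 1 ≤ q then 1 else 0) else 0) =
      (-1) ^ (k + 1) * gv n i (k + 1) (q - 1) := by
    rw [if_pos ⟨hk, by omega⟩]
    rcases q with _ | q
    · simp only [Nat.cast_zero, zero_sub]
      rw [gv_left n i hi]
      simp
    · unfold fval
      simp
  rw [t1, t2, t3, t4]
  have := gv_rec n i k q (by exact_mod_cast hq1) (by positivity)
  rw [pow_succ]
  linear_combination (-1) ^ k * this

/-- the value at the boundary cells -/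
lemma boundary (n i j : ℕ) (hn : 1 ≤ n) (hj : j ≤ n) :
    ∑ x : RCell n, fval n i x.1 * kw x.1 (n - 1 + j, 2 * n - j) =
      (-1) ^ (n - 1 + j) * cpath (2 * n + 2 * i) (2 * j) := by
  rw [sum_kw]
  set k := n - 1 + j with hk
  set q := 2 * n - j with hq
  have hkq : k + 1 + q = 3 * n := by omega
  have t1 : (if k ≤ 2 * n ∧ q < rs n k then fval n i (k, q) else 0) = (-1) ^ k * gv n i k q := by
    split_ifs with h
    · rfl
    · have h' : n + k < q := by
        by_contra hc
        apply h
        refine ⟨by omega, ?_⟩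
        unfold rs
        split_ifs <;> omega
      rw [gv_right n i k q (by exact_mod_cast h'), mul_zero]
  have t2 : (if k ≤ 2 * n ∧ q - 1 < rs n k then fval n i (k, q - 1) * (if 1 ≤ q then 1 else 0) else 0) =
      (-1) ^ k * gv n i k (q - 1) := by
    have h : k ≤ 2 * n ∧ q - 1 < rs n k := by
      refine ⟨by omega, ?_⟩
      unfold rs
      split_ifs <;> omega
    rw [if_pos h, if_pos (by omega)]
    unfold fval
    have : ((q - 1 : ℕ) : ℤ) = (q : ℤ) - 1 := by omega
    simp only [this, mul_one]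
  have t3 : (if k + 1 ≤ 2 * n ∧ q < rs n (k + 1) then fval n i (k + 1, q) else 0) = 0 := by
    rw [if_neg]
    rintro ⟨h1, h2⟩
    unfold rs at h2
    split_ifs at h2 <;> omega
  have t4 : (if k + 1 ≤ 2 * n ∧ q - 1 < rs n (k + 1) then
      fval n i (k + 1, q - 1) * (if 1 ≤ q then 1 else 0) else 0) =
      (-1) ^ (k + 1) * gv n i (k + 1) (q - 1) := by
    have h : k + 1 ≤ 2 * n ∧ q - 1 < rs n (k + 1) := by
      refine ⟨by omega, ?_⟩
      unfold rs
      split_ifs <;> omega
    rw [if_pos h, if_pos (by omega)]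
    unfold fval
    have : ((q - 1 : ℕ) : ℤ) = (q : ℤ) - 1 := by omega
    simp only [this, mul_one]
    push_cast
    rfl
  rw [t1, t2, t3, t4]
  have := gv_rec n i k q (by omega) (by positivity)
  have hg : gv n i (k + 1) q = cpath (2 * n + 2 * i) (2 * j) := by
    unfold gv
    rw [← cext_of_nonneg]
    congr 1
    · push_cast; omega
    · push_cast; omega
  rw [hg] at this
  rw [pow_succ]
  linear_combination (-1) ^ k * this


/-- cells of the rows `R_k`, `k ≥ 1` -/
def RPos (n : ℕ) : Type := {x : RCell n // 1 ≤ x.1.1}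

noncomputable instance (n : ℕ) : Fintype (RPos n) := by
  unfold RPos
  exact Fintype.ofFinite _

noncomputable instance (n : ℕ) : DecidableEq (RPos n) := Classical.decEq _

/-- common index type -/
abbrev TIdx (n : ℕ) : Type := Fin (n + 1) ⊕ RPos n

/-- row cells -/
def rfun (n : ℕ) (hn : 1 ≤ n) : TIdx n → RCell n
  | Sum.inl i => ⟨(0, n - i.1), by
      refine ⟨Nat.zero_le _, ?_⟩
      show n - i.1 < rs n 0
      unfold rs
      rw [if_pos (by omega)]
      omega⟩
  | Sum.inr x => x.1

/-- column cells -/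
def qfun (n : ℕ) (hn : 1 ≤ n) : TIdx n → QCell n
  | Sum.inl j => ⟨(n - 1 + j.1, 2 * n - j.1), by
      have := j.2
      refine ⟨by omega, ?_⟩
      unfold qs
      split_ifs <;> omega⟩
  | Sum.inr x => ⟨(x.1.1.1 - 1, x.1.1.2), by
      have h1 := x.1.2
      have h2 := x.2
      refine ⟨by omega, ?_⟩
      have h3 := h1.2
      unfold rs at h3
      unfold qs
      split_ifs at h3 ⊢ <;> omega⟩

lemma rfun_bij (n : ℕ) (hn : 1 ≤ n) : Function.Bijective (rfun n hn) := by
  constructor
  · rintro (i | x) (j | y) h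
    · have h' := congrArg (fun z : RCell n => z.1.2) h
      simp only [rfun] at h'
      congr 1
      apply Fin.ext
      have := i.2
      have := j.2
      omega
    · have h' := congrArg (fun z : RCell n => z.1.1) h
      simp only [rfun] at h'
      have := y.2
      omega
    · have h' := congrArg (fun z : RCell n => z.1.1) h
      simp only [rfun] at h'
      have := x.2
      omega
    · congr 1
      exact Subtype.ext h
  · intro x
    by_cases h : 1 ≤ x.1.1
    · exact ⟨Sum.inr ⟨x, h⟩, rfl⟩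
    · have h0 : x.1.1 = 0 := by omega
      have h1 := x.2.2
      have h2 : x.1.2 < n + 1 := by
        unfold rs at h1
        split_ifs at h1 <;> omega
      refine ⟨Sum.inl ⟨n - x.1.2, by omega⟩, ?_⟩
      apply Subtype.ext
      apply Prod.ext
      · simp only [rfun]
        exact h0.symm
      · simp only [rfun]
        omega

lemma qfun_bij (n : ℕ) (hn : 1 ≤ n) : Function.Bijective (qfun n hn) := by
  constructor
  · rintro (i | x) (j | y) h
    · have h' := congrArg (fun z : QCell n => z.1.1) h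
      simp only [qfun] at h'
      congr 1
      apply Fin.ext
      omega
    · have h1 := congrArg (fun z : QCell n => z.1.1) h
      have h2 := congrArg (fun z : QCell n => z.1.2) h
      simp only [qfun] at h1 h2
      have h3 := y.1.2.2
      have h4 := y.2
      have h5 := i.2
      have h6 : y.1.1.1 = n + i.1 := by omega
      rw [← h2] at h3
      unfold rs at h3
      rw [h6] at h3
      split_ifs at h3 <;> omega
    · have h1 := congrArg (fun z : QCell n => z.1.1) h
      have h2 := congrArg (fun z : QCell n => z.1.2) h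
      simp only [qfun] at h1 h2
      have h3 := x.1.2.2
      have h4 := x.2
      have h5 := j.2
      have h6 : x.1.1.1 = n + j.1 := by omega
      rw [h2] at h3
      unfold rs at h3
      rw [h6] at h3
      split_ifs at h3 <;> omega
    · have h1 := congrArg (fun z : QCell n => z.1.1) h
      have h2 := congrArg (fun z : QCell n => z.1.2) h
      simp only [qfun] at h1 h2
      congr 1
      apply Subtype.ext
      apply Subtype.ext
      have := x.2
      have := y.2
      exact Prod.ext (by omega) h2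
  · intro y
    by_cases h : y.1.2 < rs n (y.1.1 + 1)
    · refine ⟨Sum.inr ⟨⟨(y.1.1 + 1, y.1.2), ⟨by have := y.2.1; omega, h⟩⟩, by simp⟩, ?_⟩
      apply Subtype.ext
      apply Prod.ext
      · simp [qfun]
      · simp [qfun]
    · have h1 := y.2.1
      have h2 := y.2.2
      have h3 : n ≤ y.1.1 + 1 ∧ y.1.2 + y.1.1 + 1 = 3 * n := by
        unfold rs at h
        unfold qs at h2
        split_ifs at h h2 <;> omega
      refine ⟨Sum.inl ⟨y.1.1 + 1 - n, by omega⟩, ?_⟩
      apply Subtype.ext
      apply Prod.ext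
      · simp only [qfun]
        omega
      · simp only [qfun]
        omega

/-- the Kasteleyn matrix in the common indexing -/
noncomputable def kT (n : ℕ) (hn : 1 ≤ n) : Matrix (TIdx n) (TIdx n) ℤ :=
  Matrix.of fun s t => kw (rfun n hn s).1 (qfun n hn t).1

/-- the test functions and unit vectors -/
noncomputable def fT (n : ℕ) (hn : 1 ≤ n) : Matrix (TIdx n) (TIdx n) ℤ :=
  Matrix.fromBlocks (Matrix.of fun i j : Fin (n + 1) => fval n i.1 (rfun n hn (Sum.inl j)).1)
    (Matrix.of fun (i : Fin (n + 1)) (x : RPos n) => fval n i.1 (rfun n hn (Sum.inr x)).1) 0 1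

lemma det_eq_one_of_tri {ι : Type*} [Fintype ι] [DecidableEq ι] (A : Matrix ι ι ℤ) (b : ι → ℕ)
    (hb : Function.Injective b) (h0 : ∀ i j, b j < b i → A i j = 0) (h1 : ∀ i, A i i = 1) :
    A.det = 1 := by
  let _ : LinearOrder ι := LinearOrder.lift' b hb
  rw [Matrix.det_of_isUpperTriangular (M := A) (fun i j hij => h0 i j hij)]
  exact Finset.prod_eq_one (fun i _ => h1 i)

lemma det_fT (n : ℕ) (hn : 1 ≤ n) : (fT n hn).det = 1 := by
  unfold fT
  rw [Matrix.det_fromBlocks_zero₂₁, Matrix.det_one, mul_one]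
  rw [Matrix.det_of_isLowerTriangular]
  · apply Finset.prod_eq_one
    intro i _
    simp only [Matrix.of_apply, rfun, fval, gv]
    have h1 : ((0 : ℕ) : ℤ) + ((n - i.1 : ℕ) : ℤ) - n + 2 * (i.1 : ℤ) = (i.1 : ℤ) := by
      have := i.2
      omega
    have h2 : (n : ℤ) + ((0 : ℕ) : ℤ) - ((n - i.1 : ℕ) : ℤ) = (i.1 : ℤ) := by
      have := i.2
      omega
    rw [h1, h2, cext_of_nonneg, cpath_self]
    simp
  · intro i j hij
    have hij' : i.1 < j.1 := hij
    simp only [Matrix.of_apply, rfun, fval, gv]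
    rw [cext_lt, mul_zero]
    have := i.2
    have := j.2
    omega

lemma fT_mul_inl (n : ℕ) (hn : 1 ≤ n) (i : Fin (n + 1)) (t : TIdx n) :
    (fT n hn * kT n hn) (Sum.inl i) t = ∑ x : RCell n, fval n i.1 x.1 * kw x.1 (qfun n hn t).1 := by
  rw [Matrix.mul_apply, ← (Equiv.ofBijective _ (rfun_bij n hn)).sum_comp]
  apply Finset.sum_congr rfl
  rintro (j | x) _ <;> rfl

lemma fT_mul_inr (n : ℕ) (hn : 1 ≤ n) (x : RPos n) (t : TIdx n) :
    (fT n hn * kT n hn) (Sum.inr x) t = kw x.1.1 (qfun n hn t).1 := by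
  rw [Matrix.mul_apply, Fintype.sum_sum_type]
  simp only [fT, Matrix.fromBlocks_apply₂₁, Matrix.fromBlocks_apply₂₂, Matrix.zero_apply, zero_mul,
    Finset.sum_const_zero, zero_add, Matrix.one_apply, ite_mul, one_mul, Finset.sum_ite_eq,
    Finset.mem_univ, if_true]
  rfl

lemma fT_mul_kT (n : ℕ) (hn : 1 ≤ n) : fT n hn * kT n hn =
    Matrix.fromBlocks (Matrix.of fun i j : Fin (n + 1) => (-1) ^ (n - 1 + j.1) * pathMat n i j) 0
      (Matrix.of fun (x : RPos n) (j : Fin (n + 1)) => kw x.1.1 (qfun n hn (Sum.inl j)).1)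
      (Matrix.of fun x y : RPos n => kw x.1.1 (qfun n hn (Sum.inr y)).1) := by
  ext s t
  rcases s with i | x <;> rcases t with j | y
  · rw [fT_mul_inl, Matrix.fromBlocks_apply₁₁, Matrix.of_apply]
    exact boundary n i.1 j.1 hn (by omega)
  · rw [fT_mul_inl, Matrix.fromBlocks_apply₁₂, Matrix.zero_apply]
    have h1 := y.1.2
    have h2 := y.2
    apply interior n i.1 (by omega)
    · omega
    · have : y.1.1.1 - 1 + 1 = y.1.1.1 := by omega
      rw [this]
      exact h1.2
  · rw [fT_mul_inr]
    rfl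
  · rw [fT_mul_inr]
    rfl

lemma det_U (n : ℕ) (hn : 1 ≤ n) :
    (Matrix.of fun x y : RPos n => kw x.1.1 (qfun n hn (Sum.inr y)).1).det = 1 := by
  apply det_eq_one_of_tri _ (fun x : RPos n => x.1.1.1 * (3 * n + 2) + x.1.1.2)
  · intro x y h
    have hx : x.1.1.2 < 3 * n + 2 := by
      have h1 := x.1.2.2
      have h2 := x.1.2.1
      unfold rs at h1
      split_ifs at h1 <;> omega
    have hy : y.1.1.2 < 3 * n + 2 := by
      have h1 := y.1.2.2
      have h2 := y.1.2.1
      unfold rs at h1
      split_ifs at h1 <;> omega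
    simp only at h
    have e1 : x.1.1.1 = y.1.1.1 := by
      have h1 : (x.1.1.1 * (3 * n + 2) + x.1.1.2) / (3 * n + 2) = x.1.1.1 := by
        rw [Nat.add_comm, Nat.add_mul_div_right _ _ (by omega), Nat.div_eq_of_lt hx, zero_add]
      have h2 : (y.1.1.1 * (3 * n + 2) + y.1.1.2) / (3 * n + 2) = y.1.1.1 := by
        rw [Nat.add_comm, Nat.add_mul_div_right _ _ (by omega), Nat.div_eq_of_lt hy, zero_add]
      rw [← h1, ← h2, h]
    rw [e1] at h
    have e2 : x.1.1.2 = y.1.1.2 := by omega
    exact Subtype.ext (Subtype.ext (Prod.ext e1 e2))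
  · intro x y h
    have hx : x.1.1.2 < 3 * n + 2 := by
      have h1 := x.1.2.2
      have h2 := x.1.2.1
      unfold rs at h1
      split_ifs at h1 <;> omega
    simp only [Matrix.of_apply, qfun]
    have hy1 := y.2
    unfold kw
    simp only
    split_ifs with a1 a2 a3 a4 a5
    · exfalso
      have : y.1.1.1 = x.1.1.1 + 1 := by omega
      rw [this, add_mul] at h
      omega
    · rfl
    · exfalso
      have : y.1.1.1 = x.1.1.1 := by omega
      rw [this] at h
      omega
    · exfalso
      have : y.1.1.1 = x.1.1.1 := by omega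
      rw [this] at h
      omega
    · rfl
    · rfl
  · intro x
    simp only [Matrix.of_apply, qfun]
    have hy1 := x.2
    unfold kw
    simp only
    rw [if_neg (by omega), if_pos (by omega)]
    simp

theorem abs_det_kT (n : ℕ) (hn : 1 ≤ n) : |(kT n hn).det| = |(pathMat n).det| := by
  have h1 := congrArg Matrix.det (fT_mul_kT n hn)
  rw [Matrix.det_mul, det_fT, one_mul, Matrix.det_fromBlocks_zero₁₂, det_U, mul_one] at h1
  have h2 : (Matrix.of fun i j : Fin (n + 1) => (-1) ^ (n - 1 + j.1) * pathMat n i j).det =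
      (∏ j : Fin (n + 1), (-1 : ℤ) ^ (n - 1 + j.1)) * (pathMat n).det :=
    Matrix.det_mul_row _ _
  rw [h1, h2, abs_mul, Finset.abs_prod]
  have : ∏ j : Fin (n + 1), |(-1 : ℤ) ^ (n - 1 + j.1)| = 1 := by
    apply Finset.prod_eq_one
    intro j _
    rw [abs_pow]
    norm_num
  rw [this, one_mul]

/-- The Kasteleyn determinant. -/
theorem abs_det_kmat_path (n : ℕ) (hn : 1 ≤ n) (e : RCell n ≃ QCell n) :
    |(kmat n e).det| = |(pathMat n).det| := by
  rw [← abs_det_kT n hn]
  set er := Equiv.ofBijective _ (rfun_bij n hn) with her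
  set eq := Equiv.ofBijective _ (qfun_bij n hn) with heq
  have : kmat n e = (kT n hn).submatrix er.symm (e.trans eq.symm) := by
    ext x y
    simp only [kmat, kT, Matrix.of_apply, Matrix.submatrix_apply]
    have h1 : rfun n hn (er.symm x) = x := er.apply_symm_apply x
    have h2 : qfun n hn (e.trans eq.symm y) = e y := eq.apply_symm_apply (e y)
    rw [h1, h2]
  rw [this, Matrix.abs_det_submatrix_equiv_equiv]

/-- Final form: the Kasteleyn determinant in terms of Catalan determinants. -/
theorem abs_det_kmat_tVal (n : ℕ) (hn : 1 ≤ n) (e : RCell n ≃ QCell n) :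
    ((|(kmat n e).det| : ℤ) : ℚ) = tVal n := by
  rw [abs_det_kmat_path n hn, ← abs_det_pathMat]
  push_cast
  rfl

end Pool.Agent.H43.Benzel
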